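import Pool.Agent.PRM.Fin

/-!
# Prisms as induced minors of star-free graphs of large tree-independence number

The case `k = 3` (all `d`) of Q1 of MP_778ed5_co: for every `d` there is a bound `b` such that every
finite `K_{1,d}`-free graph `G` with `α-tw(G) ≥ b` has the `3`-double wheel `C_3 □ P_2` (the prism)
as an induced minor. The definitions `StarFree`, `TreeDec`, `AlphaLE`, `alphaTw`, `IsInducedMinor`
are in `Pool/Agent/DWH/Defs.lean`; `cycleGraph`, `pathGraph` and the box product `□` are Mathlib's.
-/

set_option autoImplicit false

namespace Pool.Agent.Results.MP_778ed5_co.StarFreePrism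

open SimpleGraph DWH

/-- For every `d`, the finite `K_{1,d}`-free graphs without the prism as an induced minor have
bounded tree-independence number. -/
theorem result (d : ℕ) : ∃ b : ℕ, ∀ (V : Type) [Finite V] (G : SimpleGraph V), StarFree d G →
    b ≤ alphaTw G → IsInducedMinor (cycleGraph 3 □ pathGraph 2) G :=
  PRM.main d

end Pool.Agent.Results.MP_778ed5_co.StarFreePrism
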